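import Pool.Agent.Helper35.HC.StC

/-!
MODULE HSM of project HC (helper35): `eH` is smooth and may be computed in any preferred chart.
-/

set_option autoImplicit false

namespace Helper78.HC

open Helper35.HC Helper35.HSF Helper35.MS Helper35.PI Helper35.PI2 Helper32.CL
open scoped ContDiff Manifold Topology BigOperators
open MeasureTheory Set Filter

/-- spatial derivative of a slice -/
private theorem slice_fderiv {n : ℕ} {V : Type*} [NormedAddCommGroup V] [NormedSpace ℝ V]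
    (φ : EE n × ℝ → V) (z : EE n × ℝ) (h : DifferentiableAt ℝ φ z)
    (i : Fin n) : fderiv ℝ (fun y => φ (y, z.2)) z.1 (ee i) = jg φ z i := by
  have h1 : HasFDerivAt (fun y : EE n => (y, z.2)) (ContinuousLinearMap.inl ℝ (EE n) ℝ) z.1 :=
    hasFDerivAt_prodMk_left z.1 z.2
  have h2 : HasFDerivAt φ (fderiv ℝ φ z) ((fun y : EE n => (y, z.2)) z.1) := h.hasFDerivAt
  have h3 : HasFDerivAt (fun y : EE n => φ (y, z.2))
      ((fderiv ℝ φ z).comp (ContinuousLinearMap.inl ℝ (EE n) ℝ)) z.1 := h2.comp z.1 h1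
  rw [h3.fderiv]
  simp [jg]

private theorem jg_smooth {n : ℕ} {V : Type*} [NormedAddCommGroup V] [NormedSpace ℝ V]
    (φ : EE n × ℝ → V) (z : EE n × ℝ) (h : ContDiffAt ℝ ∞ φ z) (i : Fin n) :
    ContDiffAt ℝ ∞ (fun z => jg φ z i) z := by
  have h1 : ContDiffAt ℝ ∞ (fderiv ℝ φ) z := h.fderiv_right (le_of_eq rfl)
  exact h1.clm_apply contDiffAt_const

private theorem five_le : (5 : ℕ∞ω) ≤ ∞ :=
  WithTop.coe_le_coe.2 (le_top : (5 : ℕ∞) ≤ ⊤)

/-- smooth dependence of `hsq` on space and time -/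
theorem hsq_smooth {n N : ℕ} (hSM : Helper35.PI.StSM) (f : EE n × ℝ → EE N) (z₀ : EE n × ℝ)
    (hf : ContDiffAt ℝ ∞ f z₀) (hLI : LI (fun y => f (y, z₀.2)) z₀.1) :
    ContDiffAt ℝ ∞ (fun z => hsq (fun y => f (y, z.2)) z.1) z₀ := by
  obtain ⟨hev, hjg, -, -, -, hgi, -, hmcv, -, -⟩ := hSM n N f z₀ hf hLI
  set μ : EE n × ℝ → EE N := fun z => mcv (fun y => f (y, z.2)) z.1 with hμ
  have hjμ : ∀ i, ContDiffAt ℝ ∞ (fun z => jg μ z i) z₀ := fun i => jg_smooth μ z₀ hmcv i
  have hdμ : ∀ᶠ z in 𝓝 z₀, DifferentiableAt ℝ μ z := by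
    have h5 : ∀ᶠ z in 𝓝 z₀, ContDiffAt ℝ 5 μ z := (hmcv.of_le five_le).eventually (by simp)
    filter_upwards [h5] with z hz
    exact hz.differentiableAt (by norm_num)
  -- the normal part of the derivative of the mean curvature
  have hn : ∀ i, ContDiffAt ℝ ∞ (fun z => nrm (fun y => f (y, z.2)) z.1
      (fderiv ℝ (mcv (fun y => f (y, z.2))) z.1 (ee i))) z₀ := by
    intro i
    have e : (fun z => nrm (fun y => f (y, z.2)) z.1
        (fderiv ℝ (mcv (fun y => f (y, z.2))) z.1 (ee i))) =ᶠ[𝓝 z₀] fun z =>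
        jg μ z i - ∑ k, ∑ l, ((gram (fun y => f (y, z.2)) z.1)⁻¹ k l *
          inner ℝ (jg μ z i) (jg f z k)) • jg f z l := by
      filter_upwards [hev, hdμ] with z hz hz2
      have h1 : fderiv ℝ (mcv (fun y => f (y, z.2))) z.1 (ee i) = jg μ z i :=
        slice_fderiv μ z hz2 i
      unfold nrm
      rw [h1]
      simp only [hz.2.2.1]
    refine ContDiffAt.congr_of_eventuallyEq ?_ e
    refine (hjμ i).sub (ContDiffAt.sum fun k _ => ContDiffAt.sum fun l _ => ?_)
    exact ((hgi k l).mul ((hjμ i).inner ℝ (hjg k))).smul (hjg l)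
  unfold hsq
  refine ContDiffAt.sum fun i _ => ContDiffAt.sum fun j _ => ?_
  exact (hgi i j).mul ((hn i).inner ℝ (hn j))

/-- Smoothness can be checked in the preferred charts. -/
private theorem lift {n : ℕ} {M : Type} [TopologicalSpace M] [ChartedSpace (EE n) M]
    [IsManifold (𝓡 n) ∞ M] {V : Type} [NormedAddCommGroup V] [NormedSpace ℝ V] (J : Set ℝ)
    (u : M → ℝ → V)
    (h : ∀ p : M, ∀ t ∈ J, ContDiffAt ℝ ∞
      (fun z : EE n × ℝ => u ((chartAt (EE n) p).symm z.1) z.2) (chartAt (EE n) p p, t)) :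
    ContMDiffOn ((𝓡 n).prod 𝓘(ℝ, ℝ)) 𝓘(ℝ, V) ∞ (fun z : M × ℝ => u z.1 z.2) (univ ×ˢ J) := by
  rintro ⟨p, t⟩ ⟨-, ht⟩
  apply ContMDiffAt.contMDiffWithinAt
  have h1 : ContMDiffAt ((𝓡 n).prod 𝓘(ℝ, ℝ)) 𝓘(ℝ, EE n × ℝ) ∞
      (fun z : M × ℝ => (chartAt (EE n) p z.1, z.2)) (p, t) := by
    refine ContMDiffAt.prodMk_space ?_ contMDiffAt_snd
    have h2 : ContMDiffAt (𝓡 n) (𝓡 n) ∞ (chartAt (EE n) p) p :=
      contMDiffOn_chart.contMDiffAt
        ((chartAt (EE n) p).open_source.mem_nhds (mem_chart_source (EE n) p))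
    exact ContMDiffAt.comp (g := chartAt (EE n) p) (f := (Prod.fst : M × ℝ → M)) (p, t) h2
      contMDiffAt_fst
  have h3 := ContMDiffAt.comp (g := fun z : EE n × ℝ => u ((chartAt (EE n) p).symm z.1) z.2)
    (f := fun z : M × ℝ => (chartAt (EE n) p z.1, z.2)) (p, t) (h p t ht).contMDiffAt h1
  refine h3.congr_of_eventuallyEq ?_
  have h4 : (chartAt (EE n) p).source ×ˢ (univ : Set ℝ) ∈ 𝓝 (p, t) :=
    prod_mem_nhds ((chartAt (EE n) p).open_source.mem_nhds (mem_chart_source (EE n) p)) univ_mem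
  filter_upwards [h4] with z hz
  simp only [Function.comp_apply, (chartAt (EE n) p).left_inv hz.1]

/-- `eH` in any preferred chart, and its sign -/
theorem eH_chart (hHSI : StHSI) (hI2 : StI2J) (n N : ℕ) (M : Type) [TopologicalSpace M]
    [ChartedSpace (EE n) M] [IsManifold (𝓡 n) ∞ M] (S : Set ℝ) (F : M → ℝ → EE N)
    (hF : IsImmJ (n := n) S F) (p₀ q : M) (t : ℝ) (ht : t ∈ S)
    (hq : q ∈ (chartAt (EE n) p₀).source) :
    eH n F q t = hsq (loc (n := n) F p₀ t) (chartAt (EE n) p₀ q) ∧ 0 ≤ eH n F q t := by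
  have hqq : q ∈ (chartAt (EE n) q).source := mem_chart_source (EE n) q
  have hxt : chartAt (EE n) q q ∈ (chartAt (EE n) q).target :=
    (chartAt (EE n) q).map_source hqq
  have hsymm : (chartAt (EE n) q).symm (chartAt (EE n) q q) = q :=
    (chartAt (EE n) q).left_inv hqq
  -- the transition map
  have hφ : ContDiffAt ℝ ∞ (fun y => chartAt (EE n) p₀ ((chartAt (EE n) q).symm y))
      (chartAt (EE n) q q) := by
    have h := contDiffWithinAt_ext_coord_change (I := 𝓡 n) (n := ∞) (𝕜 := ℝ) p₀ q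
      (y := chartAt (EE n) q q) (by
        rw [ext_coord_change_source]
        refine ⟨chartAt (EE n) q q, ?_, rfl⟩
        rw [OpenPartialHomeomorph.trans_source]
        refine ⟨hxt, ?_⟩
        change (chartAt (EE n) q).symm (chartAt (EE n) q q) ∈ (chartAt (EE n) p₀).source
        rw [hsymm]
        exact hq)
    rw [ModelWithCorners.range_eq_univ, contDiffWithinAt_univ] at h
    exact h
  have hφx : chartAt (EE n) p₀ ((chartAt (EE n) q).symm (chartAt (EE n) q q))
      = chartAt (EE n) p₀ q := by rw [hsymm]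
  -- smoothness of the flow in the chart of `p₀`
  have hf : ContDiffAt ℝ ∞ (loc (n := n) F p₀ t) (chartAt (EE n) p₀ q) := by
    have h := hI2 n N M S F hF p₀
    have hmem : (chartAt (EE n) p₀).target ×ˢ S ∈ 𝓝 (chartAt (EE n) p₀ q, t) :=
      prod_mem_nhds ((chartAt (EE n) p₀).open_target.mem_nhds ((chartAt (EE n) p₀).map_source hq))
        (hF.op.mem_nhds ht)
    have h2 : ContDiffAt ℝ ∞ (fun z : EE n × ℝ => F ((chartAt (EE n) p₀).symm z.1) z.2)
        (chartAt (EE n) p₀ q, t) := h.contDiffAt hmem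
    have h4 : ContDiffAt ℝ ∞ (fun y : EE n => (y, t)) (chartAt (EE n) p₀ q) :=
      contDiffAt_id.prodMk contDiffAt_const
    exact h2.comp (chartAt (EE n) p₀ q) h4
  have heq : loc (n := n) F q t =ᶠ[𝓝 (chartAt (EE n) q q)]
      (fun y => loc (n := n) F p₀ t (chartAt (EE n) p₀ ((chartAt (EE n) q).symm y))) := by
    have hc : ContinuousAt (chartAt (EE n) q).symm (chartAt (EE n) q q) :=
      (chartAt (EE n) q).continuousAt_symm hxt
    have hev : ∀ᶠ y in 𝓝 (chartAt (EE n) q q),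
        (chartAt (EE n) q).symm y ∈ (chartAt (EE n) p₀).source := by
      apply hc.eventually_mem
      rw [hsymm]
      exact (chartAt (EE n) p₀).open_source.mem_nhds hq
    filter_upwards [hev] with y hy
    unfold loc
    rw [(chartAt (EE n) p₀).left_inv hy]
  have hLI : LI (loc (n := n) F q t) (chartAt (EE n) q q) := hF.imm q t ht
  have key := hHSI n N (loc (n := n) F p₀ t) (loc (n := n) F q t)
    (fun y => chartAt (EE n) p₀ ((chartAt (EE n) q).symm y)) (chartAt (EE n) q q)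
    (by rw [hφx]; exact hf) hφ heq hLI
  simp only [hφx] at key
  exact key

theorem hHSM (hHSI : StHSI) (hI2J : StI2J) (hSM : Helper35.PI.StSM) : StHSM := by
  intro n N M _ _ _ J F hF
  refine ⟨?_, fun q t ht => (eH_chart hHSI hI2J n N M J F hF q q t ht
    (mem_chart_source (EE n) q)).2, fun p₀ q t ht hq =>
    (eH_chart hHSI hI2J n N M J F hF p₀ q t ht hq).1⟩
  have hcd : ∀ p : M, ∀ t ∈ J, ContDiffAt ℝ ∞
      (fun z : EE n × ℝ => F ((chartAt (EE n) p).symm z.1) z.2) (chartAt (EE n) p p, t) := by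
    intro p t ht
    exact (hI2J n N M J F hF p).contDiffAt
      (prod_mem_nhds ((chartAt (EE n) p).open_target.mem_nhds (mem_chart_target (EE n) p))
        (hF.op.mem_nhds ht))
  have hnh : ∀ p : M, ∀ t ∈ J, ∀ᶠ z : EE n × ℝ in 𝓝 (chartAt (EE n) p p, t),
      z.1 ∈ (chartAt (EE n) p).target ∧ z.2 ∈ J := by
    intro p t ht
    exact prod_mem_nhds ((chartAt (EE n) p).open_target.mem_nhds (mem_chart_target (EE n) p))
        (hF.op.mem_nhds ht)
  refine lift J _ fun p t ht => ?_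
  have h1 := hsq_smooth hSM (fun z : EE n × ℝ => F ((chartAt (EE n) p).symm z.1) z.2)
    (chartAt (EE n) p p, t) (hcd p t ht) (hF.imm p t ht)
  refine h1.congr_of_eventuallyEq ?_
  filter_upwards [hnh p t ht] with z hz
  have h2 := (eH_chart hHSI hI2J n N M J F hF p ((chartAt (EE n) p).symm z.1) z.2 hz.2
    ((chartAt (EE n) p).map_target hz.1)).1
  rw [(chartAt (EE n) p).right_inv hz.1] at h2
  exact h2

end Helper78.HC
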