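import Pool.Agent.Helper35.HC.StA

/-!
MODULE PXE of project HC (helper35): the matrix `K` at a maximal orthonormal pair.
-/

set_option autoImplicit false

namespace Helper78.HC

open Helper35.HC Helper35.HSF Helper35.MS Helper35.PI Helper35.PI2 Helper32.CL
open scoped BigOperators

section lin

variable {n : ℕ}

theorem bil_lin_left (X : Fin n → Fin n → ℝ) (a b : ℝ) (c d e : Fin n → ℝ) :
    bil X (fun i => a * c i + b * d i) e = a * bil X c e + b * bil X d e := by
  unfold bil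
  rw [Finset.mul_sum, Finset.mul_sum, ← Finset.sum_add_distrib]
  refine Finset.sum_congr rfl fun i _ => ?_
  rw [Finset.mul_sum, Finset.mul_sum, ← Finset.sum_add_distrib]
  refine Finset.sum_congr rfl fun j _ => ?_
  ring

theorem bil_symm (X : Fin n → Fin n → ℝ) (hX : SymS X) (c d : Fin n → ℝ) :
    bil X c d = bil X d c := by
  unfold bil
  rw [Finset.sum_comm]
  refine Finset.sum_congr rfl fun i _ => ?_
  refine Finset.sum_congr rfl fun j _ => ?_
  rw [hX j i]; ring

theorem bil_lin_right (X : Fin n → Fin n → ℝ) (a b : ℝ) (c d e : Fin n → ℝ) :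
    bil X e (fun i => a * c i + b * d i) = a * bil X e c + b * bil X e d := by
  unfold bil
  rw [Finset.mul_sum, Finset.mul_sum, ← Finset.sum_add_distrib]
  refine Finset.sum_congr rfl fun i _ => ?_
  rw [Finset.mul_sum, Finset.mul_sum, ← Finset.sum_add_distrib]
  refine Finset.sum_congr rfl fun j _ => ?_
  ring

theorem bil_smul_smul (X : Fin n → Fin n → ℝ) (a b : ℝ) (c d : Fin n → ℝ) :
    bil X (fun i => a * c i) (fun i => b * d i) = a * b * bil X c d := by
  unfold bil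
  rw [Finset.mul_sum]
  refine Finset.sum_congr rfl fun i _ => ?_
  rw [Finset.mul_sum]
  refine Finset.sum_congr rfl fun j _ => ?_
  ring

/-- the scalar product of two linear combinations -/
theorem dot_lin (a b a' b' : ℝ) (c d e f : Fin n → ℝ) :
    ∑ i, (a * c i + b * d i) * (a' * e i + b' * f i) =
      a * a' * (∑ i, c i * e i) + a * b' * (∑ i, c i * f i) + b * a' * (∑ i, d i * e i)
        + b * b' * (∑ i, d i * f i) := by
  rw [Finset.mul_sum, Finset.mul_sum, Finset.mul_sum, Finset.mul_sum, ← Finset.sum_add_distrib,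
    ← Finset.sum_add_distrib, ← Finset.sum_add_distrib]
  refine Finset.sum_congr rfl fun i _ => ?_
  ring

theorem sq_lin (a b : ℝ) (c d : Fin n → ℝ) :
    ∑ i, (a * c i + b * d i) ^ 2 =
      a ^ 2 * (∑ i, c i ^ 2) + 2 * a * b * (∑ i, c i * d i) + b ^ 2 * (∑ i, d i ^ 2) := by
  rw [Finset.mul_sum, Finset.mul_sum, Finset.mul_sum, ← Finset.sum_add_distrib,
    ← Finset.sum_add_distrib]
  refine Finset.sum_congr rfl fun i _ => ?_
  ring

/-- normalisation of an orthogonal pair -/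
theorem OP_scale (c d : Fin n → ℝ) (A B : ℝ) (hA : 0 < A) (hB : 0 < B)
    (hc : ∑ i, c i ^ 2 = A) (hd : ∑ i, d i ^ 2 = B) (hcd : ∑ i, c i * d i = 0) :
    OP (fun i => (Real.sqrt A)⁻¹ * c i) (fun i => (Real.sqrt B)⁻¹ * d i) := by
  refine ⟨?_, ?_, ?_⟩
  · have : ∑ i, ((Real.sqrt A)⁻¹ * c i) ^ 2 = (Real.sqrt A)⁻¹ ^ 2 * ∑ i, c i ^ 2 := by
      rw [Finset.mul_sum]
      exact Finset.sum_congr rfl fun i _ => by ring
    rw [this, hc, inv_pow, Real.sq_sqrt hA.le, inv_mul_cancel₀ hA.ne']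
  · have : ∑ i, ((Real.sqrt B)⁻¹ * d i) ^ 2 = (Real.sqrt B)⁻¹ ^ 2 * ∑ i, d i ^ 2 := by
      rw [Finset.mul_sum]
      exact Finset.sum_congr rfl fun i _ => by ring
    rw [this, hd, inv_pow, Real.sq_sqrt hB.le, inv_mul_cancel₀ hB.ne']
  · have : ∑ i, ((Real.sqrt A)⁻¹ * c i) * ((Real.sqrt B)⁻¹ * d i) =
        (Real.sqrt A)⁻¹ * (Real.sqrt B)⁻¹ * ∑ i, c i * d i := by
      rw [Finset.mul_sum]
      exact Finset.sum_congr rfl fun i _ => by ring
    rw [this, hcd, mul_zero]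

/-- the bound for orthogonal pairs of any length -/
theorem mx_scale (K b : Fin n → Fin n → ℝ) (μ : ℝ)
    (mx : ∀ c d, OP c d → bil K c d ^ 2 + bil b c d ^ 2 ≤ μ ^ 2)
    (c d : Fin n → ℝ) (A B : ℝ) (hA : 0 < A) (hB : 0 < B)
    (hc : ∑ i, c i ^ 2 = A) (hd : ∑ i, d i ^ 2 = B) (hcd : ∑ i, c i * d i = 0) :
    bil K c d ^ 2 ≤ μ ^ 2 * (A * B) := by
  have h := mx _ _ (OP_scale c d A B hA hB hc hd hcd)
  rw [bil_smul_smul, bil_smul_smul] at h
  have h1 : ((Real.sqrt A)⁻¹ * (Real.sqrt B)⁻¹ * bil K c d) ^ 2 = (A * B)⁻¹ * bil K c d ^ 2 := by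
    rw [mul_pow, mul_pow, inv_pow, inv_pow, Real.sq_sqrt hA.le, Real.sq_sqrt hB.le, mul_inv]
  have h2 : (A * B)⁻¹ * bil K c d ^ 2 ≤ μ ^ 2 := by
    rw [← h1]
    have := sq_nonneg ((Real.sqrt A)⁻¹ * (Real.sqrt B)⁻¹ * bil b c d)
    linarith
  have hAB : 0 < A * B := mul_pos hA hB
  rw [inv_mul_le_iff₀ hAB] at h2
  linarith

/-- the spread for orthogonal pairs of any length, first vector a unit vector up to scaling -/
theorem spread_scale (K : Fin n → Fin n → ℝ) (s : ℝ)
    (hs : ∀ c d, OP c d → bil K c c - bil K d d ≤ s)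
    (c d : Fin n → ℝ) (A B : ℝ) (hA : 0 < A) (hB : 0 < B)
    (hc : ∑ i, c i ^ 2 = A) (hd : ∑ i, d i ^ 2 = B) (hcd : ∑ i, c i * d i = 0) :
    A⁻¹ * bil K c c - B⁻¹ * bil K d d ≤ s := by
  have h := hs _ _ (OP_scale c d A B hA hB hc hd hcd)
  rw [bil_smul_smul, bil_smul_smul] at h
  rw [← mul_inv, ← mul_inv, Real.mul_self_sqrt hA.le, Real.mul_self_sqrt hB.le] at h
  exact h

end lin

/-- step (1) -/
theorem zero_of_bound (μ k W : ℝ) (hμ : 0 < μ)
    (h : ∀ t : ℝ, (μ + t * k) ^ 2 ≤ μ ^ 2 * (1 + t ^ 2 * W)) : k = 0 := by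
  by_contra hk
  -- `2 μ k t + t ^ 2 k ^ 2 ≤ μ ^ 2 t ^ 2 W`
  have hW : 0 ≤ |W| := abs_nonneg W
  have h1 := h (k / (μ * (1 + |W|)))
  have hpos : 0 < μ * (1 + |W|) := by positivity
  set s := 1 / (μ * (1 + |W|)) with hs
  have hs0 : 0 < s := by positivity
  have hst : k / (μ * (1 + |W|)) = s * k := by rw [hs]; ring
  rw [hst] at h1
  have hsm : s * (μ * (1 + |W|)) = 1 := by rw [hs]; field_simp
  have hk2 : 0 < k ^ 2 := by positivity
  have hWW : W ≤ |W| := le_abs_self W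
  -- 2 μ s k^2 + s^2 k^4 ≤ μ^2 s^2 k^2 W
  have h2 : 2 * μ * s * k ^ 2 + s ^ 2 * k ^ 4 ≤ μ ^ 2 * s ^ 2 * k ^ 2 * |W| := by
    have h3 : μ ^ 2 * s ^ 2 * k ^ 2 * W ≤ μ ^ 2 * s ^ 2 * k ^ 2 * |W| :=
      mul_le_mul_of_nonneg_left hWW (by positivity)
    nlinarith [h1, h3]
  have h4 : μ * s * |W| ≤ 1 := by nlinarith [mul_pos hμ hs0]
  have h5 : μ ^ 2 * s ^ 2 * k ^ 2 * |W| ≤ μ * s * k ^ 2 := by
    have : μ ^ 2 * s ^ 2 * k ^ 2 * |W| = (μ * s * k ^ 2) * (μ * s * |W|) := by ring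
    rw [this]
    exact mul_le_of_le_one_right (by positivity) h4
  have h6 : 0 < μ * s * k ^ 2 := by positivity
  have h7 : 0 ≤ s ^ 2 * k ^ 4 := by positivity
  linarith

/-- step (2) -/
theorem zero_of_bound2 (μ D : ℝ) (hμ : 0 < μ)
    (h : ∀ t : ℝ, (μ * (1 - t ^ 2) + t * D) ^ 2 ≤ μ ^ 2 * ((1 + t ^ 2) * (1 + t ^ 2))) :
    D = 0 := by
  by_contra hD
  have hD0 : 0 < |D| := abs_pos.mpr hD
  have hden : 0 < 4 * μ + 2 * |D| := by positivity
  set s := 1 / (4 * μ + 2 * |D|) with hs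
  have hs0 : 0 < s := by positivity
  have hsm : s * (4 * μ + 2 * |D|) = 1 := by rw [hs]; field_simp
  have h1 := h (s * D)
  have hD2 : 0 < D ^ 2 := by positivity
  have hsD : s * |D| ≤ 1 / 2 := by nlinarith [mul_pos hs0 hμ]
  have hsμ : s * μ ≤ 1 / 4 := by nlinarith [mul_pos hs0 hD0]
  have hsD2 : s ^ 2 * D ^ 2 ≤ 1 / 4 := by
    have : s ^ 2 * D ^ 2 = (s * |D|) ^ 2 := by rw [mul_pow, sq_abs]
    rw [this]
    have h0 : 0 ≤ s * |D| := by positivity
    nlinarith
  -- 2 μ s D^2 (1 - s^2 D^2) + s^2 D^4 ≤ 4 μ^2 s^2 D^2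
  have h2 : 2 * μ * s * D ^ 2 * (1 - s ^ 2 * D ^ 2) + s ^ 2 * D ^ 4 ≤ 4 * μ ^ 2 * s ^ 2 * D ^ 2 := by
    nlinarith [h1]
  have h3 : 2 * μ * s * D ^ 2 * (3 / 4) ≤ 2 * μ * s * D ^ 2 * (1 - s ^ 2 * D ^ 2) :=
    mul_le_mul_of_nonneg_left (by linarith) (by positivity)
  have h4 : 4 * μ ^ 2 * s ^ 2 * D ^ 2 ≤ μ * s * D ^ 2 := by
    have : 4 * μ ^ 2 * s ^ 2 * D ^ 2 = (μ * s * D ^ 2) * (4 * (s * μ)) := by ring
    rw [this]
    exact mul_le_of_le_one_right (by positivity) (by linarith)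
  have h5 : 0 < μ * s * D ^ 2 := by positivity
  have h6 : 0 ≤ s ^ 2 * D ^ 4 := by positivity
  linarith

section main

variable {n : ℕ}

/-- the component of a vector orthogonal to `P`, `Q` -/
theorem perp_dot (P Q v : Fin n → ℝ) (op : OP P Q) (α β : ℝ) (hα : α = ∑ i, v i * P i)
    (hβ : β = ∑ i, v i * Q i) :
    ∑ i, (v i - (α * P i + β * Q i)) * P i = 0 ∧ ∑ i, (v i - (α * P i + β * Q i)) * Q i = 0 := by
  obtain ⟨hP, hQ, hPQ⟩ := op
  constructor
  · have : ∑ i, (v i - (α * P i + β * Q i)) * P i =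
        (∑ i, v i * P i) - α * (∑ i, P i ^ 2) - β * (∑ i, P i * Q i) := by
      rw [Finset.mul_sum, Finset.mul_sum, ← Finset.sum_sub_distrib, ← Finset.sum_sub_distrib]
      exact Finset.sum_congr rfl fun i _ => by ring
    rw [this, hP, hPQ, ← hα]; ring
  · have : ∑ i, (v i - (α * P i + β * Q i)) * Q i =
        (∑ i, v i * Q i) - α * (∑ i, P i * Q i) - β * (∑ i, Q i ^ 2) := by
      rw [Finset.mul_sum, Finset.mul_sum, ← Finset.sum_sub_distrib, ← Finset.sum_sub_distrib]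
      exact Finset.sum_congr rfl fun i _ => by ring
    rw [this, hQ, hPQ, ← hβ]; ring

/-- (1): vectors orthogonal to the pair are `K`-orthogonal to it -/
theorem perp_right (K b : Fin n → Fin n → ℝ) (P Q : Fin n → ℝ) (μ : ℝ) (h : MXP K b P Q μ)
    (w : Fin n → ℝ) (hwP : ∑ i, w i * P i = 0) (hwQ : ∑ i, w i * Q i = 0) :
    bil K w Q = 0 := by
  obtain ⟨hP, hQ, hPQ⟩ := h.op
  apply zero_of_bound μ _ (∑ i, w i ^ 2) h.mu0
  intro t
  have hPw : ∑ i, P i * w i = 0 := by
    rw [← hwP]; exact Finset.sum_congr rfl fun i _ => by ring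
  have hc : ∑ i, ((1 : ℝ) * P i + t * w i) ^ 2 = 1 + t ^ 2 * (∑ i, w i ^ 2) := by
    rw [sq_lin, hP, hPw]; ring
  have hcd : ∑ i, ((1 : ℝ) * P i + t * w i) * Q i = 0 := by
    have : ∑ i, ((1 : ℝ) * P i + t * w i) * Q i = (∑ i, P i * Q i) + t * (∑ i, w i * Q i) := by
      rw [Finset.mul_sum, ← Finset.sum_add_distrib]
      exact Finset.sum_congr rfl fun i _ => by ring
    rw [this, hPQ, hwQ]; ring
  have hW : 0 ≤ ∑ i, w i ^ 2 := Finset.sum_nonneg fun i _ => sq_nonneg _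
  have hm := mx_scale K b μ h.mx (fun i => (1 : ℝ) * P i + t * w i) Q
    (1 + t ^ 2 * (∑ i, w i ^ 2)) 1 (by positivity) one_pos hc hQ hcd
  rw [bil_lin_left, h.KPQ] at hm
  rw [one_mul, mul_one] at hm
  exact hm

theorem MXP_swap (K b : Fin n → Fin n → ℝ) (P Q : Fin n → ℝ) (μ : ℝ) (h : MXP K b P Q μ) :
    MXP K b Q P μ := by
  obtain ⟨hP, hQ, hPQ⟩ := h.op
  exact
    { sK := h.sK
      sb := h.sb
      op := ⟨hQ, hP, by rw [← hPQ]; exact Finset.sum_congr rfl fun i _ => by ring⟩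
      KPQ := by rw [bil_symm K h.sK]; exact h.KPQ
      bPQ := by rw [bil_symm b h.sb]; exact h.bPQ
      mu0 := h.mu0
      mx := h.mx }

/-- (2) -/
theorem diag_eq (K b : Fin n → Fin n → ℝ) (P Q : Fin n → ℝ) (μ : ℝ) (h : MXP K b P Q μ) :
    bil K Q Q = bil K P P := by
  obtain ⟨hP, hQ, hPQ⟩ := h.op
  have hD : bil K Q Q - bil K P P = 0 := by
    apply zero_of_bound2 μ _ h.mu0
    intro t
    have hQP : ∑ i, Q i * P i = 0 := by
      rw [← hPQ]; exact Finset.sum_congr rfl fun i _ => by ring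
    have hc : ∑ i, ((1 : ℝ) * P i + t * Q i) ^ 2 = 1 + t ^ 2 := by
      rw [sq_lin, hP, hQ, hPQ]; ring
    have hd : ∑ i, ((-t) * P i + 1 * Q i) ^ 2 = 1 + t ^ 2 := by
      rw [sq_lin, hP, hQ, hPQ]; ring
    have hPP : ∑ i, P i * P i = 1 := by
      rw [← hP]; exact Finset.sum_congr rfl fun i _ => by ring
    have hQQ : ∑ i, Q i * Q i = 1 := by
      rw [← hQ]; exact Finset.sum_congr rfl fun i _ => by ring
    have hcd : ∑ i, ((1 : ℝ) * P i + t * Q i) * ((-t) * P i + 1 * Q i) = 0 := by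
      rw [dot_lin, hPQ, hQP, hPP, hQQ]; ring
    have hm := mx_scale K b μ h.mx (fun i => (1 : ℝ) * P i + t * Q i)
      (fun i => (-t) * P i + 1 * Q i) (1 + t ^ 2) (1 + t ^ 2) (by positivity) (by positivity)
      hc hd hcd
    rw [bil_lin_left, bil_lin_right, bil_lin_right, h.KPQ, bil_symm K h.sK Q P, h.KPQ] at hm
    calc (μ * (1 - t ^ 2) + t * (bil K Q Q - bil K P P)) ^ 2
        = (1 * (-t * bil K P P + 1 * μ) + t * (-t * μ + 1 * bil K Q Q)) ^ 2 := by ring
      _ ≤ _ := hm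
  linarith

/-- (3) in bilinear form -/
theorem bil_right_P (K b : Fin n → Fin n → ℝ) (P Q : Fin n → ℝ) (μ : ℝ) (h : MXP K b P Q μ)
    (v : Fin n → ℝ) :
    bil K v P = bil K P P * (∑ i, v i * P i) + μ * (∑ i, v i * Q i) := by
  have hsw := MXP_swap K b P Q μ h
  obtain ⟨hwP, hwQ⟩ := perp_dot P Q v h.op _ _ rfl rfl
  have h0 := perp_right K b Q P μ hsw _ hwQ hwP
  have hv : (fun i => v i - ((∑ i, v i * P i) * P i + (∑ i, v i * Q i) * Q i)) =
      (fun i => 1 * v i + (-1) * ((∑ i, v i * P i) * P i + (∑ i, v i * Q i) * Q i)) := by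
    funext i; ring
  rw [hv, bil_lin_left K 1 (-1) v
    (fun i => (∑ i, v i * P i) * P i + (∑ i, v i * Q i) * Q i) P, bil_lin_left,
    bil_symm K h.sK Q P, h.KPQ] at h0
  linarith

theorem bil_single (K : Fin n → Fin n → ℝ) (P : Fin n → ℝ) (i : Fin n) :
    bil K (fun j => if j = i then 1 else 0) P = ∑ j, K i j * P j := by
  unfold bil
  rw [Finset.sum_eq_single i]
  · exact Finset.sum_congr rfl fun j _ => by simp
  · intro k _ hk
    exact Finset.sum_eq_zero fun j _ => by simp [hk]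
  · intro hi; exact absurd (Finset.mem_univ i) hi

theorem dot_single (P : Fin n → ℝ) (i : Fin n) :
    ∑ j, (if j = i then (1 : ℝ) else 0) * P j = P i := by
  simp

theorem mul_P (K b : Fin n → Fin n → ℝ) (P Q : Fin n → ℝ) (μ : ℝ) (h : MXP K b P Q μ)
    (i : Fin n) : ∑ j, K i j * P j = bil K P P * P i + μ * Q i := by
  have h1 := bil_right_P K b P Q μ h (fun j => if j = i then 1 else 0)
  rw [bil_single, dot_single, dot_single] at h1
  exact h1

/-- the quadratic form on `αP + βQ + z` -/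
theorem bil_decomp (K b : Fin n → Fin n → ℝ) (P Q : Fin n → ℝ) (μ : ℝ) (h : MXP K b P Q μ)
    (z : Fin n → ℝ) (hzP : ∑ i, z i * P i = 0) (hzQ : ∑ i, z i * Q i = 0) (α β : ℝ) :
    bil K (fun i => 1 * (α * P i + β * Q i) + 1 * z i)
      (fun i => 1 * (α * P i + β * Q i) + 1 * z i) =
      bil K P P * (α ^ 2 + β ^ 2) + 2 * μ * (α * β) + bil K z z := by
  have hsw := MXP_swap K b P Q μ h
  have hz1 : bil K z Q = 0 := perp_right K b P Q μ h z hzP hzQ
  have hz2 : bil K z P = 0 := perp_right K b Q P μ hsw z hzQ hzP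
  have hz3 : bil K Q z = 0 := by rw [bil_symm K h.sK]; exact hz1
  have hz4 : bil K P z = 0 := by rw [bil_symm K h.sK]; exact hz2
  rw [bil_lin_left K 1 1 (fun i => α * P i + β * Q i) z,
    bil_lin_right K 1 1 (fun i => α * P i + β * Q i) z (fun i => α * P i + β * Q i),
    bil_lin_right K 1 1 (fun i => α * P i + β * Q i) z z,
    bil_lin_left K α β P Q, bil_lin_left K α β P Q, bil_lin_right K α β P Q P,
    bil_lin_right K α β P Q Q, bil_lin_right K α β P Q z, hz1, hz2, hz3, hz4, h.KPQ,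
    bil_symm K h.sK Q P, h.KPQ, diag_eq K b P Q μ h]
  ring

end main

theorem hPXE (hSPL : StSPL) : StPXE := by
  intro n hn K b P Q μ h k₀ hk₀
  subst hk₀
  have hsw := MXP_swap K b P Q μ h
  have hQQ := diag_eq K b P Q μ h
  obtain ⟨hP, hQ, hPQ⟩ := h.op
  refine ⟨hQQ, fun i => mul_P K b P Q μ h i, fun i => ?_, ?_, ?_⟩
  · rw [mul_P K b Q P μ hsw i, hQQ]
  · -- the spread
    have hsp : ∀ c d, OP c d → bil K c c - bil K d d ≤ 2 * μ := by
      intro c d hcd
      have h1 := (hSPL n hn K b μ h.sK h.sb h.mu0.le h.mx 1 0 (by norm_num)).1 c d hcd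
      have h2 : lc 1 0 K b = K := by
        funext i j; unfold lc; ring
      rw [h2] at h1
      exact h1
    -- vectors orthogonal to `P`, `Q`
    have hz : ∀ z : Fin n → ℝ, ∑ i, z i * P i = 0 → ∑ i, z i * Q i = 0 →
        (bil K P P - μ) * (∑ i, z i ^ 2) ≤ bil K z z ∧
          bil K z z ≤ (bil K P P + μ) * (∑ i, z i ^ 2) := by
      intro z hzP hzQ
      have hZ : 0 ≤ ∑ i, z i ^ 2 := Finset.sum_nonneg fun i _ => sq_nonneg _
      rcases hZ.eq_or_lt with hZ0 | hZ0
      · have hz0 : ∀ i, z i = 0 := by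
          intro i
          have := (Finset.sum_eq_zero_iff_of_nonneg (fun i _ => sq_nonneg (z i))).mp hZ0.symm i
            (Finset.mem_univ i)
          exact pow_eq_zero_iff (two_ne_zero) |>.mp this
        have hb : bil K z z = 0 := by
          unfold bil
          exact Finset.sum_eq_zero fun i _ => Finset.sum_eq_zero fun j _ => by
            rw [hz0 i]; ring
        rw [← hZ0, hb]
        constructor <;> simp
      · have hPz : ∑ i, P i * z i = 0 := by
          rw [← hzP]; exact Finset.sum_congr rfl fun i _ => by ring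
        have hQz : ∑ i, Q i * z i = 0 := by
          rw [← hzQ]; exact Finset.sum_congr rfl fun i _ => by ring
        have hpp : ∑ i, ((1 : ℝ) * P i + 1 * Q i) ^ 2 = 2 := by
          rw [sq_lin, hP, hQ, hPQ]; ring
        have hqq : ∑ i, ((1 : ℝ) * P i + (-1) * Q i) ^ 2 = 2 := by
          rw [sq_lin, hP, hQ, hPQ]; ring
        have hpz : ∑ i, ((1 : ℝ) * P i + 1 * Q i) * z i = 0 := by
          have : ∑ i, ((1 : ℝ) * P i + 1 * Q i) * z i =
              (∑ i, P i * z i) + (∑ i, Q i * z i) := by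
            rw [← Finset.sum_add_distrib]
            exact Finset.sum_congr rfl fun i _ => by ring
          rw [this, hPz, hQz]; ring
        have hzq : ∑ i, z i * ((1 : ℝ) * P i + (-1) * Q i) = 0 := by
          have : ∑ i, z i * ((1 : ℝ) * P i + (-1) * Q i) =
              (∑ i, P i * z i) - (∑ i, Q i * z i) := by
            rw [← Finset.sum_sub_distrib]
            exact Finset.sum_congr rfl fun i _ => by ring
          rw [this, hPz, hQz]; ring
        have hKp : bil K (fun i => (1 : ℝ) * P i + 1 * Q i) (fun i => (1 : ℝ) * P i + 1 * Q i) =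
            2 * (bil K P P + μ) := by
          rw [bil_lin_left, bil_lin_right, bil_lin_right, h.KPQ, bil_symm K h.sK Q P, h.KPQ, hQQ]
          ring
        have hKq : bil K (fun i => (1 : ℝ) * P i + (-1) * Q i)
            (fun i => (1 : ℝ) * P i + (-1) * Q i) = 2 * (bil K P P - μ) := by
          rw [bil_lin_left, bil_lin_right, bil_lin_right, h.KPQ, bil_symm K h.sK Q P, h.KPQ, hQQ]
          ring
        have h1 := spread_scale K (2 * μ) hsp (fun i => (1 : ℝ) * P i + 1 * Q i) z 2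
          (∑ i, z i ^ 2) two_pos hZ0 hpp rfl hpz
        have h2 := spread_scale K (2 * μ) hsp z (fun i => (1 : ℝ) * P i + (-1) * Q i)
          (∑ i, z i ^ 2) 2 hZ0 two_pos rfl hqq hzq
        rw [hKp] at h1
        rw [hKq] at h2
        constructor
        · have h3 : bil K P P - μ ≤ (∑ i, z i ^ 2)⁻¹ * bil K z z := by linarith
          rw [← div_eq_inv_mul, le_div_iff₀ hZ0] at h3
          exact h3
        · have h3 : (∑ i, z i ^ 2)⁻¹ * bil K z z ≤ bil K P P + μ := by linarith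
          rw [← div_eq_inv_mul, div_le_iff₀ hZ0] at h3
          exact h3
    intro w
    set α := ∑ i, w i * P i with hα
    set β := ∑ i, w i * Q i with hβ
    obtain ⟨hzP, hzQ⟩ := perp_dot P Q w h.op α β hα hβ
    set z : Fin n → ℝ := fun i => w i - (α * P i + β * Q i) with hzdef
    have hw : w = fun i => 1 * (α * P i + β * Q i) + 1 * z i := by
      funext i; rw [hzdef]; ring
    have hPz : ∑ i, P i * z i = 0 := by
      rw [← hzP]; exact Finset.sum_congr rfl fun i _ => by ring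
    have hQz : ∑ i, Q i * z i = 0 := by
      rw [← hzQ]; exact Finset.sum_congr rfl fun i _ => by ring
    have hnorm : ∑ i, w i ^ 2 = α ^ 2 + β ^ 2 + ∑ i, z i ^ 2 := by
      have h1 : ∑ i, w i ^ 2 = ∑ i, (1 * (α * P i + β * Q i) + 1 * z i) ^ 2 :=
        Finset.sum_congr rfl fun i _ => by rw [hzdef]; ring
      rw [h1, sq_lin 1 1 (fun i => α * P i + β * Q i) z, sq_lin, hP, hQ, hPQ]
      have h2 : ∑ i, (α * P i + β * Q i) * z i = 0 := by
        have : ∑ i, (α * P i + β * Q i) * z i = α * (∑ i, P i * z i) + β * (∑ i, Q i * z i) := by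
          rw [Finset.mul_sum, Finset.mul_sum, ← Finset.sum_add_distrib]
          exact Finset.sum_congr rfl fun i _ => by ring
        rw [this, hPz, hQz]; ring
      rw [h2]; ring
    have hbil : bil K w w = bil K P P * (α ^ 2 + β ^ 2) + 2 * μ * (α * β) + bil K z z := by
      conv_lhs => rw [hw]
      exact bil_decomp K b P Q μ h z hzP hzQ α β
    obtain ⟨hz1, hz2⟩ := hz z hzP hzQ
    have hμ := h.mu0
    rw [hbil, hnorm]
    constructor
    · nlinarith [mul_nonneg hμ.le (sq_nonneg (α + β))]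
    · nlinarith [mul_nonneg hμ.le (sq_nonneg (α - β))]
  · -- the norm of the traceless part
    have hPP : ∑ i, P i * P i = 1 := by
      rw [← hP]; exact Finset.sum_congr rfl fun i _ => by ring
    have hX : ∑ i, ∑ j, tl K i j * (P i * Q j) = μ := by
      have h1 : ∑ i, ∑ j, tl K i j * (P i * Q j) =
          bil K P Q - mt K * (∑ i, P i * Q i) := by
        unfold bil tl
        rw [Finset.mul_sum, ← Finset.sum_sub_distrib]
        refine Finset.sum_congr rfl fun i _ => ?_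
        have h2 : ∀ j, (K i j - if i = j then mt K else 0) * (P i * Q j) =
            K i j * (P i * Q j) - (if i = j then mt K * (P i * Q j) else 0) := by
          intro j; split_ifs <;> ring
        rw [Finset.sum_congr rfl fun j _ => h2 j, Finset.sum_sub_distrib]
        simp
      rw [h1, h.KPQ, hPQ]; ring
    have hX' : ∑ i, ∑ j, tl K i j * (Q i * P j) = μ := by
      rw [← hX, Finset.sum_comm]
      refine Finset.sum_congr rfl fun i _ => Finset.sum_congr rfl fun j _ => ?_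
      have : tl K j i = tl K i j := by
        unfold tl
        rw [h.sK j i]
        by_cases hij : i = j
        · subst hij; rfl
        · rw [if_neg hij, if_neg (fun e => hij e.symm)]
      rw [this]; ring
    have hN : ∑ i, ∑ j, (P i * Q j + Q i * P j) ^ 2 = 2 := by
      have h1 : ∀ i, ∑ j, (P i * Q j + Q i * P j) ^ 2 =
          P i ^ 2 * (∑ j, Q j ^ 2) + 2 * (P i * Q i) * (∑ j, P j * Q j)
            + Q i ^ 2 * (∑ j, P j ^ 2) := by
        intro i
        rw [Finset.mul_sum, Finset.mul_sum, Finset.mul_sum, ← Finset.sum_add_distrib,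
          ← Finset.sum_add_distrib]
        exact Finset.sum_congr rfl fun j _ => by ring
      rw [Finset.sum_congr rfl fun i _ => h1 i, hP, hQ, hPQ]
      simp only [mul_one, mul_zero, add_zero]
      rw [Finset.sum_add_distrib, hP, hQ]; norm_num
    have hpos : 0 ≤ ∑ i, ∑ j, (tl K i j - μ * (P i * Q j + Q i * P j)) ^ 2 :=
      Finset.sum_nonneg fun i _ => Finset.sum_nonneg fun j _ => sq_nonneg _
    have hexp : ∑ i, ∑ j, (tl K i j - μ * (P i * Q j + Q i * P j)) ^ 2 =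
        ip0 K K - 2 * μ * (∑ i, ∑ j, tl K i j * (P i * Q j))
          - 2 * μ * (∑ i, ∑ j, tl K i j * (Q i * P j))
          + μ ^ 2 * (∑ i, ∑ j, (P i * Q j + Q i * P j) ^ 2) := by
      unfold ip0
      rw [Finset.mul_sum, Finset.mul_sum, Finset.mul_sum, ← Finset.sum_sub_distrib,
        ← Finset.sum_sub_distrib, ← Finset.sum_add_distrib]
      refine Finset.sum_congr rfl fun i _ => ?_
      rw [Finset.mul_sum, Finset.mul_sum, Finset.mul_sum, ← Finset.sum_sub_distrib,
        ← Finset.sum_sub_distrib, ← Finset.sum_add_distrib]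
      refine Finset.sum_congr rfl fun j _ => ?_
      ring
    rw [hexp, hX, hX', hN] at hpos
    nlinarith [hpos]

end Helper78.HC
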